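import Pool.Agent.H.MP_0cad2f_co.helper47.Obj
import Pool.Agent.H.MP_0cad2f_co.helper47.Flux
import Pool.Agent.H.MP_0cad2f_co.helper29.Cover

/-! The normal cones do not overlap. -/

set_option autoImplicit false

namespace Pool.Agent.H.MP_0cad2f_co.helper77

open MeasureTheory ProbabilityTheory Matrix Finset
open scoped NNReal ENNReal
open Pool.Agent.H.MP_0cad2f_co.helper47
open Pool.Agent.H.MP_0cad2f_co.helper29 (unique_cone ae_generic)

variable {n d : ℕ}

private theorem isClosed_cone (a : Fin n → Fin d → ℝ) (B : Idx n d) (p : Fin d → ℝ) (R : ℝ) :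
    IsClosed {X : Fin d → ℝ | ‖X‖ ≤ R ∧ InCone a B (X + p)} := by
  have hc : Continuous fun X : Fin d → ℝ => (X, (1 : ℝ)) := by fun_prop
  have h1 : IsClosed {X : Fin d → ℝ | InCone a B (X + p)} := by
    have h2 := (isClosed_inCone a B p).preimage hc
    simpa using h2
  exact (isClosed_le continuous_norm continuous_const).inter h1

open Classical in
/-- (7d1) Normal cones do not overlap. -/
theorem sum_coneVol_le (hd : 1 ≤ d) {a : Fin n → Fin d → ℝ} (hs : Simple a)
    (p : Fin d → ℝ) (R : ℝ) :
    ∑ B : Idx n d, (if Good a B then coneVol a B p R else 0) ≤ cubeVol d R := by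
  rw [← Finset.sum_filter]
  unfold coneVol cubeVol
  rw [← measure_biUnion_finset₀]
  · refine measure_mono ?_
    intro X hX
    simp only [Set.mem_iUnion] at hX
    obtain ⟨B, -, h1, -⟩ := hX
    exact h1
  · intro B hB B' hB' hne
    have hB1 : Good a B := (Finset.mem_filter.1 hB).2
    have hB2 : Good a B' := (Finset.mem_filter.1 hB').2
    have h1 : ∀ᵐ X ∂(volume : Measure (Fin d → ℝ)),
        X ∉ {X : Fin d → ℝ | ‖X‖ ≤ R ∧ InCone a B (X + p)} ∩
          {X : Fin d → ℝ | ‖X‖ ≤ R ∧ InCone a B' (X + p)} := by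
      filter_upwards [ae_generic hd a 0 p] with X hX
      rintro ⟨⟨-, h2⟩, -, h3⟩
      exact hne (unique_cone hs hX hB1 hB2 h2 h3)
    exact measure_eq_zero_iff_ae_notMem.2 h1
  · intro B _
    exact (isClosed_cone a B p R).measurableSet.nullMeasurableSet

end Pool.Agent.H.MP_0cad2f_co.helper77
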